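import Mathlib

/-! # DIM: a minor whose extra columns span all extra columns -/

namespace Pool.Agent.ZC

open Finset Module

theorem exists_minor_ext {R C E K : Type*} [Fintype R] [DecidableEq R] [Fintype C] [Fintype E]
    [Field K] (A : Matrix R (C ⊕ E) K) (h : LinearIndependent K A.row) :
    ∃ g : R → C ⊕ E, Function.Injective g ∧ (A.submatrix id g).det ≠ 0 ∧
      ∀ e : E, ∃ c : R → K, (∀ s, (g s).isRight = false → c s = 0) ∧
        ∀ r, A r (.inr e) = ∑ s, c s * A r (g s) := by
  classical
  obtain ⟨c1, hc1, -, hs1, hl1⟩ := exists_linearIndepOn_extension (K := K) (v := A.col)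
    (s := ∅) (t := Set.range Sum.inr) (linearIndepOn_empty K _) (Set.empty_subset _)
  obtain ⟨c2, -, hc12, hs2, hl2⟩ := exists_linearIndepOn_extension (K := K) (v := A.col)
    (s := c1) (t := Set.univ) hl1 (Set.subset_univ _)
  have hspan : Submodule.span K (Set.range (A.col ∘ ((↑) : c2 → C ⊕ E))) =
      Submodule.span K (Set.range A.col) := by
    rw [Set.range_comp, Subtype.range_coe]
    refine le_antisymm (Submodule.span_mono (Set.image_subset_range _ _)) ?_
    rw [Submodule.span_le, ← Set.image_univ]
    exact hs2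
  have hrank : A.rank = Fintype.card R := h.rank_matrix
  rw [Matrix.rank_eq_finrank_span_cols] at hrank
  have : Fintype c2 := Fintype.ofFinite c2
  have hcard : Fintype.card c2 = Fintype.card R := by
    have h1 := linearIndependent_iff_card_eq_finrank_span.mp hl2.linearIndependent
    have h2 : (fun x : c2 => A.col x) = A.col ∘ ((↑) : c2 → C ⊕ E) := rfl
    rw [Set.finrank, h2, hspan, hrank] at h1
    exact h1
  let e : R ≃ c2 := Fintype.equivOfCardEq hcard.symm
  refine ⟨fun r => (e r).1, Subtype.val_injective.comp e.injective, ?_, ?_⟩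
  · have hcol : LinearIndependent K (A.submatrix id (fun r => (e r).1)).col := by
      have h3 : (A.submatrix id (fun r => (e r).1)).col = (fun x : c2 => A.col x) ∘ e := by
        ext i j
        rfl
      rw [h3]
      exact hl2.linearIndependent.comp e e.injective
    have hu := Matrix.linearIndependent_cols_iff_isUnit.1 hcol
    exact ((Matrix.isUnit_iff_isUnit_det _).1 hu).ne_zero
  · intro e'
    have hm : A.col (Sum.inr e') ∈ Submodule.span K (A.col '' c1) := hs1 ⟨_, ⟨e', rfl⟩, rfl⟩
    rw [Finsupp.mem_span_image_iff_linearCombination] at hm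
    obtain ⟨l, hl, hle⟩ := hm
    rw [Finsupp.mem_supported] at hl
    refine ⟨fun s => l (e s).1, ?_, ?_⟩
    · intro s hs
      by_contra hne
      have h4 : (e s).1 ∈ c1 := hl (Finsupp.mem_support_iff.2 hne)
      obtain ⟨y, hy⟩ := hc1 h4
      have hs' : (e s).1.isRight = false := hs
      rw [← hy] at hs'
      simp at hs'
    · intro r
      have h5 := congrFun hle r
      rw [Finsupp.linearCombination_apply, Finsupp.sum, Finset.sum_apply] at h5
      simp only [Pi.smul_apply, smul_eq_mul] at h5
      rw [show A r (Sum.inr e') = A.col (Sum.inr e') r from rfl, ← h5]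
      have h6 : ∑ s, l (e s).1 * A r (e s).1 = ∑ y : c2, l y.1 * A r y.1 :=
        e.sum_comp (fun y : c2 => l y.1 * A r y.1)
      rw [h6]
      have h7 : ∑ y : c2, l y.1 * A r y.1 = ∑ y ∈ univ.image (fun y : c2 => y.1), l y * A r y := by
        rw [Finset.sum_image fun a _ b _ hab => Subtype.ext hab]
      rw [h7]
      refine Finset.sum_subset ?_ ?_
      · intro y hy
        have h8 : y ∈ c2 := hc12 (hl hy)
        exact mem_image.2 ⟨⟨y, h8⟩, mem_univ _, rfl⟩
      · intro y _ hy
        rw [Finsupp.notMem_support_iff] at hy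
        rw [hy, zero_mul]

end Pool.Agent.ZC
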