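import Pool.Agent.DIM.JG
import Pool.Agent.DIM.JM
import Pool.Agent.ZC.RS

/-! # DIM: joint determinant inequality

Rows live in `Col ⊕ Ex`; the companion rows `v (inl i)` have zero extra part, the rows `j : Fi` have
the extra part `x j`.  A real shear `σ` (adding combinations of the extra coordinates to the
coordinates in `Col`) makes the `F` rows small modulo the companions.  `K` is a space of combinations
of `F` rows with vanishing extra part which are independent modulo the companions. -/

namespace Pool.Agent.ZC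

open Finset Module

section rank

variable {Cc Fi Col Ex : Type*} [Fintype Cc] [Fintype Fi] [Fintype Col] [Fintype Ex]

/-- the full rows -/
def jrow (v : Cc ⊕ Fi → Col → ℚ) (x : Fi → Ex → ℚ) : Cc ⊕ Fi → (Col ⊕ Ex → ℚ)
  | .inl i => Sum.elim (v (.inl i)) 0
  | .inr j => Sum.elim (v (.inr j)) (x j)

theorem jrow_rank (v : Cc ⊕ Fi → Col → ℚ) (x : Fi → Ex → ℚ) (K : Submodule ℚ (Fi → ℚ))
    (hK0 : ∀ f ∈ K, ∀ e, ∑ j, f j * x j e = 0)
    (hmod : ∀ f ∈ K, ∀ c : Cc → ℚ,
      (∀ y, ∑ i, c i * v (.inl i) y + ∑ j, f j * v (.inr j) y = 0) → f = 0) :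
    finrank ℚ (Submodule.span ℚ (Set.range (fun i : Cc => jrow v x (.inl i)))) + finrank ℚ K +
      finrank ℚ (Submodule.span ℚ (Set.range x)) ≤
      finrank ℚ (Submodule.span ℚ (Set.range (jrow v x))) := by
  classical
  set U := Submodule.span ℚ (Set.range (jrow v x)) with hU
  set UT := Submodule.span ℚ (Set.range (fun i : Cc => jrow v x (.inl i))) with hUT
  set π : (Col ⊕ Ex → ℚ) →ₗ[ℚ] (Ex → ℚ) := LinearMap.funLeft ℚ ℚ Sum.inr with hπ
  have hπT : ∀ z ∈ UT, π z = 0 := by
    intro z hz
    rw [hUT] at hz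
    have : UT ≤ LinearMap.ker π := by
      rw [hUT, Submodule.span_le]
      rintro _ ⟨i, rfl⟩
      rw [SetLike.mem_coe, LinearMap.mem_ker]
      funext e
      rfl
    exact this hz
  have hUTU : UT ≤ U := by
    rw [hUT, Submodule.span_le]
    rintro _ ⟨i, rfl⟩
    exact Submodule.subset_span ⟨_, rfl⟩
  have hrange : LinearMap.range (π.domRestrict U) = Submodule.span ℚ (Set.range x) := by
    rw [LinearMap.range_domRestrict, hU, Submodule.map_span]
    refine le_antisymm ?_ ?_
    · rw [Submodule.span_le]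
      rintro _ ⟨_, ⟨r, rfl⟩, rfl⟩
      rcases r with i | j
      · have : π (jrow v x (.inl i)) = 0 := hπT _ (Submodule.subset_span ⟨i, rfl⟩)
        rw [this]
        exact Submodule.zero_mem _
      · exact Submodule.subset_span ⟨j, rfl⟩
    · rw [Submodule.span_le]
      rintro _ ⟨j, rfl⟩
      exact Submodule.subset_span ⟨jrow v x (.inr j), ⟨_, rfl⟩, rfl⟩
  have hrn := LinearMap.finrank_range_add_finrank_ker (π.domRestrict U)
  rw [hrange] at hrn
  -- the map from combinations
  set Ω : (Fi → ℚ) →ₗ[ℚ] (Col ⊕ Ex → ℚ) :=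
    Fintype.linearCombination ℚ (fun j => jrow v x (.inr j)) with hΩ
  have hΩa : ∀ f c, Ω f c = ∑ j, f j * jrow v x (.inr j) c := by
    intro f c
    rw [hΩ, Fintype.linearCombination_apply, Finset.sum_apply]
    rfl
  have hΩU : ∀ f, Ω f ∈ U := by
    intro f
    rw [hΩ, Fintype.linearCombination_apply]
    exact Submodule.sum_mem _ fun j _ => Submodule.smul_mem _ _ (Submodule.subset_span ⟨_, rfl⟩)
  have hker : ∀ (a : UT) (f : K), π (a.1 + Ω f.1) = 0 := by
    intro a f
    rw [map_add, hπT a.1 a.2, zero_add]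
    funext e
    show Ω f.1 (.inr e) = 0
    rw [hΩa]
    exact hK0 f.1 f.2 e
  set Φ : (UT × K) →ₗ[ℚ] (LinearMap.ker (π.domRestrict U)) :=
    { toFun := fun z => ⟨⟨z.1.1 + Ω z.2.1, Submodule.add_mem _ (hUTU z.1.2) (hΩU _)⟩, by
        rw [LinearMap.mem_ker]
        exact hker z.1 z.2⟩
      map_add' := by
        intro z z'
        apply Subtype.ext
        apply Subtype.ext
        show (z.1.1 + z'.1.1) + Ω (z.2.1 + z'.2.1) = (z.1.1 + Ω z.2.1) + (z'.1.1 + Ω z'.2.1)
        rw [map_add]
        abel
      map_smul' := by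
        intro c z
        apply Subtype.ext
        apply Subtype.ext
        show c • z.1.1 + Ω (c • z.2.1) = c • (z.1.1 + Ω z.2.1)
        rw [map_smul, smul_add] } with hΦ
  have hinj : Function.Injective Φ := by
    refine (injective_iff_map_eq_zero Φ).2 fun z hz => ?_
    have h0 : z.1.1 + Ω z.2.1 = 0 := congrArg (fun w => w.1.1) hz
    obtain ⟨c, hc⟩ := (Submodule.mem_span_range_iff_exists_fun ℚ).1 z.1.2
    have hf : z.2.1 = 0 := by
      refine hmod z.2.1 z.2.2 c fun y => ?_
      have h1 := congrFun h0 (.inl y)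
      rw [Pi.add_apply, hΩa, ← hc, Finset.sum_apply] at h1
      exact h1
    have ha : z.1.1 = 0 := by
      rw [hf, map_zero, add_zero] at h0
      exact h0
    exact Prod.ext (Subtype.ext ha) (Subtype.ext hf)
  have hle := LinearMap.finrank_le_finrank_of_injective hinj
  rw [finrank_prod] at hle
  omega

end rank

theorem joint_det_ineq {Cc Fi Col Ex : Type} [Fintype Cc] [Fintype Fi] [Fintype Col] [Fintype Ex]
    (v : Cc ⊕ Fi → Col → ℚ) (x : Fi → Ex → ℚ) (M1 : ℕ) (K : Submodule ℚ (Fi → ℚ))
    (hK : M1 ≤ finrank ℚ K)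
    (hK0 : ∀ f ∈ K, ∀ e, ∑ j, f j * x j e = 0)
    (hmod : ∀ f ∈ K, ∀ c : Cc → ℚ,
      (∀ y, ∑ i, c i * v (.inl i) y + ∑ j, f j * v (.inr j) y = 0) → f = 0)
    (D : ℕ) (hD : 0 < D) (hint : ∀ r y, ∃ w : ℤ, (D : ℚ) * v r y = w)
    (hintx : ∀ j e, ∃ w : ℤ, (D : ℚ) * x j e = w)
    (N t : ℝ) (hN : 0 ≤ N) (ht0 : 0 ≤ t) (ht1 : t < 1) (γ : Fi → ℕ → ℝ) (u : ℕ → Col → ℝ)
    (h1 : ∀ i y, |(v (.inl i) y : ℝ)| ≤ N)
    (h1x : ∀ j e, |(x j e : ℝ)| ≤ N)
    (h2 : ∀ j k y, |γ j k * u k y| ≤ N * t ^ (2 * k)) (σ : Ex → Col → ℝ)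
    (h3 : ∀ j, ∃ α : Cc → ℝ, ∀ y, HasSum (fun k => γ j k * u k y)
      ((v (.inr j) y : ℝ) + ∑ e, σ e y * (x j e : ℝ) - ∑ i, α i * (v (.inl i) y : ℝ))) :
    ∃ R : ℕ, R ≤ Fintype.card Cc + Fintype.card Fi ∧ R ≤ Fintype.card Col + Fintype.card Ex ∧
      1 ≤ (D : ℝ) ^ R * (2 ^ R * ((R.factorial : ℝ) * N ^ R *
        t ^ (M1 * (M1 - 1) / 2) * (1 / (1 - t)) ^ Fintype.card Fi)) := by
  classical
  -- selection of rows
  obtain ⟨b1, hb1, -, hs1, hl1⟩ := exists_linearIndepOn_extension (K := ℚ) (v := jrow v x)
    (s := ∅) (t := Set.range Sum.inl) (linearIndepOn_empty ℚ _) (Set.empty_subset _)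
  obtain ⟨b2, -, hb12, hs2, hl2⟩ := exists_linearIndepOn_extension (K := ℚ) (v := jrow v x)
    (s := b1) (t := Set.univ) hl1 (Set.subset_univ _)
  have : Fintype b2 := Fintype.ofFinite b2
  have hspan : Submodule.span ℚ (Set.range (fun r : b2 => jrow v x r)) =
      Submodule.span ℚ (Set.range (jrow v x)) := by
    have e1 : (fun r : b2 => jrow v x r) = jrow v x ∘ ((↑) : b2 → Cc ⊕ Fi) := rfl
    rw [e1, Set.range_comp, Subtype.range_coe]
    refine le_antisymm (Submodule.span_mono (Set.image_subset_range _ _)) ?_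
    rw [Submodule.span_le, ← Set.image_univ]
    exact hs2
  have hcard : Fintype.card b2 = finrank ℚ (Submodule.span ℚ (Set.range (jrow v x))) := by
    have h5 := linearIndependent_iff_card_eq_finrank_span.mp hl2.linearIndependent
    rw [Set.finrank, hspan] at h5
    exact h5
  set G : Finset b2 := univ.filter (fun r => r.1.isRight = true) with hG
  have memG : ∀ r : b2, r ∈ G ↔ r.1.isRight = true := by intro r; simp [hG]
  set ρ := finrank ℚ (Submodule.span ℚ (Set.range x)) with hρ
  -- number of companion rows among b2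
  have hGc : Gᶜ.card ≤ finrank ℚ (Submodule.span ℚ (Set.range (fun i : Cc => jrow v x (.inl i)))) := by
    have hli : LinearIndependent ℚ (fun r : (Gᶜ : Finset b2) => jrow v x r.1.1) :=
      hl2.linearIndependent.comp (fun r : (Gᶜ : Finset b2) => r.1) Subtype.val_injective
    have h5 := linearIndependent_iff_card_eq_finrank_span.mp hli
    rw [Fintype.card_coe, Set.finrank] at h5
    rw [h5]
    refine Submodule.finrank_mono (Submodule.span_mono ?_)
    rintro _ ⟨⟨r, hr⟩, rfl⟩
    rw [mem_compl, memG] at hr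
    obtain ⟨r, hr'⟩ := r
    rcases r with i | j
    · exact ⟨i, rfl⟩
    · exact absurd rfl hr
  have hGcard : Gᶜ.card + G.card = Fintype.card b2 := by
    rw [card_compl]
    have := G.card_le_univ
    omega
  have hrk := jrow_rank v x K hK0 hmod
  have hGM : M1 + ρ ≤ G.card := by omega
  -- the minor
  obtain ⟨g, hg, hdet, hex⟩ := exists_minor_ext (K := ℚ)
    (Matrix.of (fun r : b2 => jrow v x r.1)) hl2.linearIndependent
  set R := Fintype.card b2 with hR
  refine ⟨R, by
    have h5 : R ≤ Fintype.card (Cc ⊕ Fi) := Fintype.card_le_of_injective _ Subtype.val_injective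
    rwa [Fintype.card_sum] at h5, by
    have h5 := Submodule.finrank_le (Submodule.span ℚ (Set.range (jrow v x)))
    rw [Module.finrank_fintype_fun_eq_card, Fintype.card_sum] at h5
    omega, ?_⟩
  set Δ : ℚ := ((Matrix.of (fun r : b2 => jrow v x r.1)).submatrix id g).det with hΔ
  -- integrality
  have hWint : ∀ r c, ∃ w : ℤ, (D : ℚ) * jrow v x r c = w := by
    rintro (i | j) (y | e)
    · exact hint _ _
    · exact ⟨0, by simp [jrow]⟩
    · exact hint _ _
    · exact hintx _ _
  have hint2 : ∃ w : ℤ, (D : ℚ) ^ R * Δ = w := by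
    choose w hw using fun (r : b2) (c : b2) => hWint r.1 (g c)
    refine ⟨(Matrix.of w).det, ?_⟩
    have e2 : ((Matrix.of w).det : ℚ) = ((Matrix.of w).map (fun t : ℤ => (t : ℚ))).det :=
      (RingHom.map_det (Int.castRingHom ℚ) _)
    rw [e2]
    have e3 : (Matrix.of w).map (fun t : ℤ => (t : ℚ)) =
        (D : ℚ) • ((Matrix.of (fun r : b2 => jrow v x r.1)).submatrix id g) := by
      ext r c
      simp only [Matrix.map_apply, Matrix.of_apply, Matrix.smul_apply, Matrix.submatrix_apply, id_eq,
        smul_eq_mul]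
      rw [hw]
    rw [e3, Matrix.det_smul]
  obtain ⟨w, hw⟩ := hint2
  have hw0 : w ≠ 0 := by
    rintro rfl
    rw [Int.cast_zero, mul_eq_zero] at hw
    rcases hw with h | h
    · have : (D : ℚ) ≠ 0 := by exact_mod_cast hD.ne'
      exact pow_ne_zero _ this h
    · exact hdet h
  have hone : (1 : ℝ) ≤ (D : ℝ) ^ R * |(Δ : ℝ)| := by
    have e2 : (1 : ℝ) ≤ |(w : ℝ)| := by
      have := Int.one_le_abs hw0
      exact_mod_cast this
    have e3 : (w : ℝ) = (D : ℝ) ^ R * (Δ : ℝ) := by
      have := congrArg (fun t : ℚ => (t : ℝ)) hw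
      push_cast at this ⊢
      exact this.symm
    rw [e3, abs_mul, abs_of_nonneg (by positivity)] at e2
    exact e2
  -- real matrix
  set A0 : Matrix b2 b2 ℝ := Matrix.of fun r c => (jrow v x r.1 (g c) : ℝ) with hA0
  have hcast0 : (Δ : ℝ) = A0.det := by
    have e1 : A0 = ((Matrix.of (fun r : b2 => jrow v x r.1)).submatrix id g).map
        (fun q : ℚ => (q : ℝ)) := by
      ext r c
      simp only [hA0, Matrix.of_apply, Matrix.map_apply, Matrix.submatrix_apply, id_eq]
    rw [e1]
    exact (RingHom.map_det (Rat.castHom ℝ) _)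
  -- the shear, as a column operation
  choose cx hcx0 hcx using hex
  set A1 : Matrix b2 b2 ℝ := Matrix.of fun r c =>
    match g c with
    | .inl y => (jrow v x r.1 (.inl y) : ℝ) + ∑ e, σ e y * (jrow v x r.1 (.inr e) : ℝ)
    | .inr e => (jrow v x r.1 (.inr e) : ℝ) with hA1
  have hdet1 : A1.det = A0.det := by
    rw [← Matrix.det_transpose A1, ← Matrix.det_transpose A0]
    set S : Finset b2 := univ.filter (fun c => (g c).isRight = false) with hS
    have memS : ∀ c, c ∈ S ↔ (g c).isRight = false := by intro c; simp [hS]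
    refine det_row_ops A0.transpose A1.transpose S
      (fun c s => match g c with
        | .inl y => ∑ e, σ e y * (cx e s : ℝ)
        | .inr _ => 0) ?_ ?_
    · intro c hc r
      rw [memS] at hc
      simp only [Matrix.transpose_apply, hA1, hA0, Matrix.of_apply]
      rcases hgc : g c with y | e
      · rw [hgc] at hc
        exact absurd rfl hc
      · rfl
    · intro c hc r
      rw [memS] at hc
      simp only [Matrix.transpose_apply, hA1, hA0, Matrix.of_apply]
      rcases hgc : g c with y | e
      · simp only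
        congr 1
        have e1 : ∀ e, (jrow v x r.1 (.inr e) : ℝ) =
            ∑ s ∈ Sᶜ, (cx e s : ℝ) * (jrow v x r.1 (g s) : ℝ) := by
          intro e
          have h6 := hcx e r
          simp only [Matrix.of_apply] at h6
          rw [h6]
          push_cast
          symm
          refine Finset.sum_subset (Finset.subset_univ _) fun s _ hs => ?_
          rw [mem_compl, not_not, memS] at hs
          rw [hcx0 e s hs]
          simp
        simp_rw [e1, Finset.mul_sum, Finset.sum_mul]
        rw [Finset.sum_comm]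
        refine sum_congr rfl fun s _ => sum_congr rfl fun e _ => by ring
      · rw [hgc] at hc
        exact absurd hc (by simp)
  -- the row operations
  have hcomb : ∀ i : Cc, ∃ c : b2 → ℚ, (∀ s, s ∈ G → c s = 0) ∧
      ∀ y, jrow v x (.inl i) y = ∑ s ∈ Gᶜ, c s * jrow v x s.1 y := by
    intro i
    have hm : jrow v x (.inl i) ∈ Submodule.span ℚ (jrow v x '' b1) := hs1 ⟨_, ⟨i, rfl⟩, rfl⟩
    rw [Finsupp.mem_span_image_iff_linearCombination] at hm
    obtain ⟨l, hl, hle⟩ := hm
    rw [Finsupp.mem_supported] at hl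
    refine ⟨fun s => l s.1, ?_, ?_⟩
    · intro s hs
      rw [memG] at hs
      by_contra hne
      have h4 : s.1 ∈ b1 := hl (Finsupp.mem_support_iff.2 hne)
      obtain ⟨y, hy⟩ := hb1 h4
      rw [← hy] at hs
      simp at hs
    · intro y
      have h5 := congrFun hle y
      rw [Finsupp.linearCombination_apply, Finsupp.sum, Finset.sum_apply] at h5
      simp only [Pi.smul_apply, smul_eq_mul] at h5
      rw [← h5]
      have h7 : ∑ s ∈ Gᶜ, l s.1 * jrow v x s.1 y =
          ∑ z ∈ (Gᶜ).image (fun s : b2 => s.1), l z * jrow v x z y := by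
        rw [Finset.sum_image fun a _ b _ hab => Subtype.ext hab]
      rw [h7]
      refine Finset.sum_subset ?_ ?_
      · intro z hz
        have h8 : z ∈ b1 := hl hz
        refine mem_image.2 ⟨⟨z, hb12 h8⟩, ?_, rfl⟩
        rw [mem_compl, memG]
        obtain ⟨y', hy'⟩ := hb1 h8
        have h9 : z.isRight = false := by rw [← hy']; rfl
        intro hcon
        have hcon' : z.isRight = true := hcon
        rw [h9] at hcon'
        exact Bool.false_ne_true hcon'
      · intro z _ hz
        rw [Finsupp.notMem_support_iff] at hz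
        rw [hz, zero_mul]
  choose cc hcc0 hcc using hcomb
  choose α hα using h3
  set cf : b2 → b2 → ℝ := fun r s =>
    match r.1 with
    | .inr j => ∑ i, α j i * (cc i s : ℝ)
    | .inl _ => 0 with hcf
  set A : Matrix b2 b2 ℝ := Matrix.of fun r c =>
    if r ∈ G then A1 r c - ∑ s ∈ Gᶜ, cf r s * A1 s c else A1 r c with hA
  have hdetA : A1.det = A.det := by
    refine det_row_ops A A1 G cf ?_ ?_
    · intro r hr c
      simp only [hA, Matrix.of_apply, if_neg hr]
    · intro r hr c
      have e1 : ∑ k ∈ Gᶜ, cf r k * A k c = ∑ k ∈ Gᶜ, cf r k * A1 k c := by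
        refine sum_congr rfl fun k hk => ?_
        rw [mem_compl] at hk
        simp only [hA, Matrix.of_apply, if_neg hk]
      rw [e1]
      simp only [hA, Matrix.of_apply, if_pos hr]
      ring
  -- the two parts
  set X : Matrix b2 b2 ℝ := Matrix.of fun r c =>
    match r.1, g c with
    | .inr j, .inr e => (x j e : ℝ)
    | _, _ => 0 with hX
  set Y : Matrix b2 b2 ℝ := Matrix.of fun r c => A r c - X r c with hY
  have hcomp : ∀ (j : Fi) (c : b2), ∑ s ∈ Gᶜ, (∑ i, α j i * (cc i s : ℝ)) * A1 s c =
      match g c with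
      | .inl y => ∑ i, α j i * (v (.inl i) y : ℝ)
      | .inr _ => 0 := by
    intro j c
    have e0 : ∀ i, (∑ s ∈ Gᶜ, (cc i s : ℝ) * A1 s c) = match g c with
      | .inl y => (v (.inl i) y : ℝ)
      | .inr _ => 0 := by
      intro i
      have e3 : ∀ z, (∑ s ∈ Gᶜ, (cc i s : ℝ) * (jrow v x s.1 z : ℝ)) = (jrow v x (.inl i) z : ℝ) := by
        intro z
        rw [hcc i z]
        push_cast
        rfl
      simp only [hA1, Matrix.of_apply]
      rcases hgc : g c with y | e
      · simp only [mul_add, Finset.sum_add_distrib]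
        rw [e3]
        have e4 : ∑ s ∈ Gᶜ, (cc i s : ℝ) * ∑ e, σ e y * (jrow v x s.1 (.inr e) : ℝ) = 0 := by
          have e5 : ∑ s ∈ Gᶜ, (cc i s : ℝ) * ∑ e, σ e y * (jrow v x s.1 (.inr e) : ℝ) =
              ∑ e, σ e y * ∑ s ∈ Gᶜ, (cc i s : ℝ) * (jrow v x s.1 (.inr e) : ℝ) := by
            simp_rw [Finset.mul_sum]
            rw [Finset.sum_comm]
            refine sum_congr rfl fun s _ => sum_congr rfl fun e _ => by ring
          rw [e5]
          refine sum_eq_zero fun e _ => ?_
          rw [e3]
          simp [jrow]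
        rw [e4, add_zero]
        simp [jrow]
      · simp only
        rw [e3]
        simp [jrow]
    have e6 : ∑ s ∈ Gᶜ, (∑ i, α j i * (cc i s : ℝ)) * A1 s c =
        ∑ i, α j i * ∑ s ∈ Gᶜ, (cc i s : ℝ) * A1 s c := by
      simp_rw [Finset.mul_sum, Finset.sum_mul]
      rw [Finset.sum_comm]
      refine sum_congr rfl fun i _ => sum_congr rfl fun s _ => by ring
    rw [e6]
    simp_rw [e0]
    rcases g c with y | e
    · rfl
    · simp
  have hYval : ∀ (j : Fi) (hj : (Sum.inr j : Cc ⊕ Fi) ∈ b2) (c : b2), Y ⟨.inr j, hj⟩ c =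
      match g c with
      | .inl y => ((v (.inr j) y : ℝ) + ∑ e, σ e y * (x j e : ℝ) - ∑ i, α j i * (v (.inl i) y : ℝ))
      | .inr _ => 0 := by
    intro j hj c
    have hmem : (⟨.inr j, hj⟩ : b2) ∈ G := (memG _).2 rfl
    simp only [hY, hA, Matrix.of_apply, if_pos hmem, hcf, hX]
    rw [hcomp j c]
    simp only [hA1, Matrix.of_apply]
    rcases g c with y | e
    · simp [jrow]
    · simp [jrow]
  have hN0 : ∀ r ∉ G, ∀ c, |A r c| ≤ N := by
    intro r hr c
    obtain ⟨r, hrb⟩ := r
    rcases r with i | j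
    · simp only [hA, Matrix.of_apply, if_neg hr, hA1]
      rcases g c with y | e
      · simp only [jrow, Sum.elim_inl, Sum.elim_inr, Pi.zero_apply, Rat.cast_zero, mul_zero,
          Finset.sum_const_zero, add_zero]
        exact h1 i y
      · simp only [jrow, Sum.elim_inr, Pi.zero_apply, Rat.cast_zero, abs_zero]
        exact hN
    · exact absurd ((memG _).2 rfl) hr
  have hgood := joint_good A X Y G ρ M1 hGM N hN t ht0 ht1
    (fun r k => match r.1 with
      | .inr j => γ j k
      | .inl _ => 0)
    (fun k c => match g c with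
      | .inl y => u k y
      | .inr _ => 0)
    hN0
    (fun r _ c => by simp only [hY, Matrix.of_apply]; ring)
    (by
      intro r hr c
      obtain ⟨r, hrb⟩ := r
      rcases r with i | j
      · exact absurd ((memG _).1 hr) (by simp)
      · simp only [hX, Matrix.of_apply]
        rcases g c with y | e
        · simpa using hN
        · exact h1x j e)
    (by
      intro r hr k c
      obtain ⟨r, hrb⟩ := r
      rcases r with i | j
      · exact absurd ((memG _).1 hr) (by simp)
      · simp only
        rcases g c with y | e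
        · exact h2 j k y
        · simp only [mul_zero, abs_zero]
          positivity)
    (by
      intro r hr c
      obtain ⟨r, hrb⟩ := r
      rcases r with i | j
      · exact absurd ((memG _).1 hr) (by simp)
      · rw [hYval j hrb c]
        simp only
        rcases g c with y | e
        · exact hα j y
        · simp only [mul_zero]
          exact hasSum_zero)
    (by
      intro S hS hcard'
      -- rational dependence of the extra parts
      have hnot : ¬ LinearIndependent ℚ (fun s : S => (match s.1.1 with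
          | .inr j => x j
          | .inl _ => 0 : Ex → ℚ)) := by
        intro hli
        have h5 := linearIndependent_iff_card_eq_finrank_span.mp hli
        rw [Fintype.card_coe, Set.finrank] at h5
        have h6 : Submodule.span ℚ (Set.range (fun s : S => (match s.1.1 with
          | .inr j => x j
          | .inl _ => 0 : Ex → ℚ))) ≤ Submodule.span ℚ (Set.range x) := by
          rw [Submodule.span_le]
          rintro _ ⟨⟨⟨r, hrb⟩, hr⟩, rfl⟩
          rcases r with i | j
          · exact Submodule.zero_mem _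
          · exact Submodule.subset_span ⟨j, rfl⟩
        have h7 := Submodule.finrank_mono h6
        omega
      rw [Fintype.linearIndependent_iff] at hnot
      push Not at hnot
      obtain ⟨q, hq, s0, hs0⟩ := hnot
      refine ⟨fun s => if h : s ∈ S then (q ⟨s, h⟩ : ℝ) else 0, ⟨s0.1, s0.2, ?_⟩, ?_⟩
      · show (if h : s0.1 ∈ S then (q ⟨s0.1, h⟩ : ℝ) else 0) ≠ 0
        rw [dif_pos s0.2]
        exact_mod_cast hs0
      · intro c
        rw [← Finset.sum_coe_sort S]
        rcases hgc : g c with y | e
        · refine sum_eq_zero fun s _ => ?_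
          have : X s.1 c = 0 := by
            obtain ⟨⟨r, hrb⟩, hr⟩ := s
            rcases r with i | j
            · simp only [hX, Matrix.of_apply, hgc]
            · simp only [hX, Matrix.of_apply, hgc]
          rw [this, mul_zero]
        · have h8 := congrFun hq e
          rw [Finset.sum_apply] at h8
          have h9 := congrArg (fun z : ℚ => (z : ℝ)) h8
          simp only [Pi.smul_apply, smul_eq_mul, Pi.zero_apply, Rat.cast_zero, Rat.cast_sum,
            Rat.cast_mul] at h9
          refine Eq.trans (sum_congr rfl fun s _ => ?_) h9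
          show (if h : s.1 ∈ S then (q ⟨s.1, h⟩ : ℝ) else 0) * _ = _
          rw [dif_pos s.2]
          congr 1
          obtain ⟨⟨r, hrb⟩, hr⟩ := s
          rcases r with i | j
          · exact absurd ((memG _).1 (hS hr)) (by simp)
          · simp only [hX, Matrix.of_apply, hgc])
  rw [← hdetA, hdet1, ← hcast0, ← hR] at hgood
  have hGF : G.card ≤ Fintype.card Fi := by
    have h5 : Function.Injective (fun r : G => (r.1.1 : Cc ⊕ Fi)) :=
      Subtype.val_injective.comp Subtype.val_injective
    choose jj hjj using fun r : G => Sum.isRight_iff.1 ((memG r.1).1 r.2)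
    have h6 : Function.Injective jj := by
      intro r r' h
      apply h5
      show r.1.1 = r'.1.1
      rw [hjj r, hjj r', h]
    have h7 := Fintype.card_le_of_injective jj h6
    rwa [Fintype.card_coe] at h7
  have ht : (1 : ℝ) ≤ 1 / (1 - t) := by
    rw [one_le_div (by linarith)]
    linarith
  refine hone.trans (mul_le_mul_of_nonneg_left (hgood.trans ?_) (by positivity))
  have e2 : (1 / (1 - t)) ^ G.card ≤ (1 / (1 - t)) ^ Fintype.card Fi := pow_le_pow_right₀ ht hGF
  gcongr

end Pool.Agent.ZC
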