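import Pool.Agent.ZC.GOOD

/-! # DIM: determinants whose good rows are a bounded row of small rank plus a series -/

namespace Pool.Agent.ZC

open Finset

/-- Rows outside `G` are bounded by `N`; a row `r ∈ G` is `X r + Y r`, `X r` bounded by `N`, `Y r` a
series over common vectors; more than `ρ` of the rows `X r` are always dependent. -/
theorem joint_good {ι : Type*} [Fintype ι] [DecidableEq ι] (A X Y : Matrix ι ι ℝ) (G : Finset ι)
    (ρ M1 : ℕ) (hρ : M1 + ρ ≤ G.card)
    (N : ℝ) (hN : 0 ≤ N) (t : ℝ) (ht0 : 0 ≤ t) (ht1 : t < 1) (γ : ι → ℕ → ℝ) (u : ℕ → ι → ℝ)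
    (h1 : ∀ r, r ∉ G → ∀ c, |A r c| ≤ N)
    (hA : ∀ r ∈ G, ∀ c, A r c = X r c + Y r c)
    (hX : ∀ r ∈ G, ∀ c, |X r c| ≤ N)
    (h2 : ∀ r ∈ G, ∀ k c, |γ r k * u k c| ≤ N * t ^ (2 * k))
    (h3 : ∀ r ∈ G, ∀ c, HasSum (fun k => γ r k * u k c) (Y r c))
    (h4 : ∀ S ⊆ G, ρ < S.card → ∃ a : ι → ℝ, (∃ s ∈ S, a s ≠ 0) ∧ ∀ c, ∑ s ∈ S, a s * X s c = 0) :
    |A.det| ≤ 2 ^ Fintype.card ι * ((Fintype.card ι).factorial * N ^ Fintype.card ι *
      t ^ (M1 * (M1 - 1) / 2) * (1 / (1 - t)) ^ G.card) := by
  classical
  set X' : ι → ι → ℝ := fun r => if r ∈ G then X r else 0 with hX'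
  set Y' : ι → ι → ℝ := fun r => if r ∈ G then Y r else A r with hY'
  have hAe : A = Matrix.of (X' + Y') := by
    ext r c
    simp only [Matrix.of_apply, Pi.add_apply, hX', hY']
    by_cases hr : r ∈ G
    · simp only [if_pos hr]
      exact hA r hr c
    · simp only [if_neg hr, Pi.zero_apply, zero_add]
  have hexp : A.det = ∑ s : Finset ι, (Matrix.of (s.piecewise X' Y')).det := by
    conv_lhs => rw [hAe]
    exact MultilinearMap.map_add_univ
      (Matrix.detRowAlternating (R := ℝ) (n := ι)).toMultilinearMap X' Y'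
  have ht : (1 : ℝ) ≤ 1 / (1 - t) := by
    rw [one_le_div (by linarith)]
    linarith
  have hterm : ∀ s ∈ (univ : Finset (Finset ι)), |(Matrix.of (s.piecewise X' Y')).det| ≤
      (Fintype.card ι).factorial * N ^ Fintype.card ι *
      t ^ (M1 * (M1 - 1) / 2) * (1 / (1 - t)) ^ G.card := by
    intro s _
    have hnn : 0 ≤ ((Fintype.card ι).factorial : ℝ) * N ^ Fintype.card ι *
      t ^ (M1 * (M1 - 1) / 2) * (1 / (1 - t)) ^ G.card := by
      positivity
    by_cases hs : s ⊆ G
    · by_cases hc : ρ < s.card
      · -- dependent rows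
        obtain ⟨a, ⟨s0, hs0, ha0⟩, ha⟩ := h4 s hs hc
        have hz : (Matrix.of (s.piecewise X' Y')).det = 0 := by
          by_contra hdet
          have hli := Matrix.linearIndependent_rows_of_det_ne_zero hdet
          rw [Fintype.linearIndependent_iff] at hli
          have := hli (fun r => if r ∈ s then a r else 0) (by
            funext c
            rw [Finset.sum_apply, Pi.zero_apply]
            simp only [Pi.smul_apply, smul_eq_mul, ite_mul, zero_mul]
            rw [Finset.sum_ite_mem, univ_inter, ← ha c]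
            refine sum_congr rfl fun r hr => ?_
            congr 1
            show (s.piecewise X' Y') r c = X r c
            rw [Finset.piecewise_eq_of_mem _ _ _ hr]
            simp only [hX', if_pos (hs hr)]) s0
          rw [if_pos hs0] at this
          exact ha0 this
        rw [hz, abs_zero]
        exact hnn
      · push Not at hc
        have hG' : M1 ≤ (G \ s).card := by
          rw [card_sdiff_of_subset hs]
          omega
        have hG'' : (G \ s).card ≤ G.card := card_le_card sdiff_subset
        have hb := good_lemma (Matrix.of (s.piecewise X' Y')) (G \ s) (fun _ => N) (fun _ => hN) t ht0 ht1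
          γ u ?_ ?_ ?_
        · rw [prod_const, card_univ] at hb
          refine hb.trans ?_
          have e1 : t ^ ((G \ s).card * ((G \ s).card - 1) / 2) ≤ t ^ (M1 * (M1 - 1) / 2) := by
            refine pow_le_pow_of_le_one ht0 ht1.le (Nat.div_le_div_right ?_)
            exact Nat.mul_le_mul hG' (by omega)
          have e2 : (1 / (1 - t)) ^ (G \ s).card ≤ (1 / (1 - t)) ^ G.card :=
            pow_le_pow_right₀ ht hG''
          gcongr
        · intro r hr c
          show |(s.piecewise X' Y') r c| ≤ N
          by_cases hrs : r ∈ s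
          · rw [Finset.piecewise_eq_of_mem _ _ _ hrs]
            simp only [hX', if_pos (hs hrs)]
            exact hX r (hs hrs) c
          · rw [Finset.piecewise_eq_of_notMem _ _ _ hrs]
            have hrG : r ∉ G := fun h => hr (mem_sdiff.2 ⟨h, hrs⟩)
            simp only [hY', if_neg hrG]
            exact h1 r hrG c
        · intro r hr k c
          exact h2 r (mem_sdiff.1 hr).1 k c
        · intro r hr c
          have e : (Matrix.of (s.piecewise X' Y')) r c = Y r c := by
            show (s.piecewise X' Y') r c = Y r c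
            rw [Finset.piecewise_eq_of_notMem _ _ _ (mem_sdiff.1 hr).2]
            simp only [hY', if_pos (mem_sdiff.1 hr).1]
          rw [e]
          exact h3 r (mem_sdiff.1 hr).1 c
    · obtain ⟨r, hr, hrG⟩ := Finset.not_subset.1 hs
      have hz : (Matrix.of (s.piecewise X' Y')).det = 0 := by
        refine Matrix.det_eq_zero_of_row_eq_zero r fun c => ?_
        show (s.piecewise X' Y') r c = 0
        rw [Finset.piecewise_eq_of_mem _ _ _ hr]
        simp only [hX', if_neg hrG, Pi.zero_apply]
      rw [hz, abs_zero]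
      exact hnn
  rw [hexp]
  refine (Finset.abs_sum_le_sum_abs _ _).trans ((Finset.sum_le_sum hterm).trans (le_of_eq ?_))
  rw [Finset.sum_const, Finset.card_univ, Fintype.card_finset, nsmul_eq_mul]
  push_cast
  ring

end Pool.Agent.ZC
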